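import Pool.Agent.helper93.ADV.SpecU

set_option autoImplicit false

namespace Pool.Agent.ADV

open Finset Pool.Agent.helper38.Neg Pool.Agent.helper55.NT Pool.Agent.LNB

theorem GRB : GRB_stmt := by
  intro n q hq
  have hq0 : (0 : ℝ) < q := by exact_mod_cast hq
  have h1 : (2 : ℝ) ≤ (1 + (1 / (q : ℝ)) ^ 2) ^ (q ^ 2) := by
    have h2 := one_add_mul_le_pow (a := (1 / (q : ℝ)) ^ 2) (by
      have : 0 ≤ (1 / (q : ℝ)) ^ 2 := by positivity
      linarith) (q ^ 2)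
    have h3 : ((q ^ 2 : ℕ) : ℝ) * (1 / (q : ℝ)) ^ 2 = 1 := by
      push_cast
      field_simp
    rw [h3] at h2
    linarith
  have h4 : (2 : ℝ) ^ (n + 1) ≤ (1 + (1 / (q : ℝ)) ^ 2) ^ ((n + 1) * q ^ 2) := by
    rw [mul_comm (n + 1), pow_mul]
    exact pow_le_pow_left₀ (by norm_num) h1 (n + 1)
  have h5 : (2 : ℝ) ^ n < 2 ^ (n + 1) := by
    rw [pow_succ]
    have : (0 : ℝ) < 2 ^ n := by positivity
    linarith
  exact lt_of_lt_of_le h5 h4

end Pool.Agent.ADV
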